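import Pool.Agent.Helper36.LX.Sheet2
open MeasureTheory Metric Set Filter Topology Real
open scoped ENNReal NNReal

namespace H11ST
namespace LX

theorem ustep : LX_USTEP := by
  intro hnet d hd A S x r L hA G a ha hne K hK hcon b hb hbe hbr
  have hr : 0 < r := hb.trans hbr
  have hKpos : (0 : ℝ) < K := by exact_mod_cast hK
  have hmono : ∀ u v : ℝ, u ≤ v → v ≤ r → len S x u ≤ len S x v := by
    intro u v h1 h2
    exact ENNReal.toReal_mono (L.len_fin h2) (measure_mono (inter_subset_inter_right _
      (ball_subset_ball h1)))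
  -- many strands
  have many : ∀ ρ, a ≤ ρ → ρ < r → 2 * r * (3 * K : ℝ) ^ d ≤ len S x ρ → ∀ m : ℕ,
      ((m : ℝ) < K * len S x ρ / (2 * r) + 1) → (m : ℕ∞) ≤ (S ∩ sphere x ρ).encard := by
    intro ρ h1 h2 h3 m hm
    by_cases hfin : (S ∩ sphere x ρ).Finite
    · set P := hfin.toFinset with hP
      have hPm : ∀ p, p ∈ P ↔ p ∈ S ∩ sphere x ρ := fun p => hfin.mem_toFinset
      have hρ0 : 0 < ρ := ha.trans_le h1
      obtain ⟨D, c, hS, hPD, hc⟩ := hnet d (by omega) x ρ hρ0 K hK P
        (fun p hp => ((hPm p).1 hp).2)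
      have h4 := L.len_comp hA h2 hS.closed hS.conn hS.sub (fun p hp => hPD p ((hPm p).2 hp))
        (hne ρ h1 h2) hS.nonneg hS.len
      have h5 : len S x ρ ≤ r * ((3 * K : ℝ) ^ d + P.card / K) := by
        refine h4.trans (hc.trans ?_)
        exact mul_le_mul_of_nonneg_right h2.le (by positivity)
      have h6 : K * len S x ρ / (2 * r) ≤ P.card := by
        rw [div_le_iff₀ (by positivity)]
        have h7 : len S x ρ ≤ 2 * (r * (P.card / K)) := by linarith
        have h8 : K * len S x ρ ≤ K * (2 * (r * (P.card / K))) :=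
          mul_le_mul_of_nonneg_left h7 hKpos.le
        have h9 : K * (2 * (r * (P.card / K))) = (P.card : ℝ) * (2 * r) := by
          field_simp
        linarith
      have h10 : m ≤ P.card := by
        have : (m : ℝ) < P.card + 1 := by linarith
        have h11 : m < P.card + 1 := by exact_mod_cast this
        omega
      rw [hfin.encard_eq_coe_toFinset_card]
      exact_mod_cast h10
    · rw [Set.Infinite.encard_eq hfin]; exact le_top
  set X : ℝ := 12 * r ^ 2 / K ^ 2 with hX
  have hX0 : 0 < X := by positivity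
  have hbX : b ^ 2 = a ^ 2 + d * X := by
    rw [hbe, hX]
    ring
  set w : ℕ → ℝ := fun j => a ^ 2 + j * X with hw
  have hw0 : ∀ j, a ^ 2 ≤ w j := by
    intro j
    rw [hw]
    have : (0 : ℝ) ≤ j * X := by positivity
    simp only
    linarith
  have hwb : ∀ j, j ≤ d → w j ≤ b ^ 2 := by
    intro j hj
    rw [hbX, hw]
    have : (j : ℝ) ≤ d := by exact_mod_cast hj
    have := mul_le_mul_of_nonneg_right this hX0.le
    simp only
    linarith
  have hb0 : ∀ j, a ≤ √(w j) := fun j => Real.le_sqrt_of_sq_le (hw0 j)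
  have hbr' : ∀ j, j ≤ d → √(w j) < r := by
    intro j hj
    refine lt_of_le_of_lt ?_ hbr
    rw [← Real.sqrt_sq hb.le]
    exact Real.sqrt_le_sqrt (hwb j hj)
  have step : ∀ j : ℕ, j ≤ d → 2 ^ j * (2 * r * (3 * K : ℝ) ^ d) ≤ len S x (√(w j)) := by
    intro j
    induction j with
    | zero =>
      intro _
      have : w 0 = a ^ 2 := by rw [hw]; simp
      rw [this, Real.sqrt_sq ha.le]
      simpa using hcon
    | succ j ih =>
      intro hj
      have ih' := ih (by omega)
      set u := √(w j) with hu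
      set v := √(w (j + 1)) with hv
      have hvr : v < r := hbr' (j + 1) hj
      have hww : w (j + 1) - w j = X := by
        rw [hw]; simp only; push_cast; ring
      have hle : u ≤ v := by
        refine Real.sqrt_le_sqrt ?_
        linarith
      have hbig : 2 * r * (3 * K : ℝ) ^ d ≤ len S x u := by
        refine le_trans ?_ ih'
        have : (1 : ℝ) ≤ 2 ^ j := one_le_pow₀ (by norm_num)
        exact le_mul_of_one_le_left (by positivity) this
      set m := ⌈K * len S x u / (2 * r)⌉₊ with hm
      have hlen := len_nonneg S x u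
      have hq : 0 ≤ K * len S x u / (2 * r) := by positivity
      have hG := G u v (Real.sqrt_nonneg _) hle hvr m (fun ρ hρ => by
        have hρ2 : len S x u ≤ len S x ρ := hmono _ _ hρ.1.le (hρ.2.trans hvr).le
        refine many ρ ((hb0 j).trans hρ.1.le) (hρ.2.trans hvr) (hbig.trans hρ2) m ?_
        refine (Nat.ceil_lt_add_one hq).trans_le ?_
        have : K * len S x u / (2 * r) ≤ K * len S x ρ / (2 * r) := by
          gcongr
        linarith)
      rw [hu, hv, Real.sq_sqrt ((sq_nonneg a).trans (hw0 _)),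
        Real.sq_sqrt ((sq_nonneg a).trans (hw0 _)), hww, ← hu, ← hv] at hG
      have h1 : (K * len S x u / (2 * r)) ^ 2 * X ≤ (m : ℝ) ^ 2 * X :=
        mul_le_mul_of_nonneg_right (pow_le_pow_left₀ hq (Nat.le_ceil _) 2) hX0.le
      have h2 : (K * len S x u / (2 * r)) ^ 2 * X = 3 * len S x u ^ 2 := by
        rw [hX]
        field_simp
        ring
      have h3 : (2 * len S x u) ^ 2 ≤ len S x v ^ 2 := by
        have : (2 * len S x u) ^ 2 = 4 * len S x u ^ 2 := by ring
        linarith
      have h4 : 2 * len S x u ≤ len S x v := le_of_sq_le_sq h3 (len_nonneg _ _ _)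
      calc 2 ^ (j + 1) * (2 * r * (3 * K : ℝ) ^ d) = 2 * (2 ^ j * (2 * r * (3 * K : ℝ) ^ d)) := by
            ring
        _ ≤ 2 * len S x u := by linarith
        _ ≤ _ := h4
  have hfin := step d le_rfl
  have hwd : √(w d) = b := by
    have : w d = b ^ 2 := by rw [hbX]
    rw [this, Real.sqrt_sq hb.le]
  rw [hwd] at hfin
  refine le_trans (le_of_eq ?_) hfin
  rw [show (3 * (2 * K : ℝ)) = 2 * (3 * K) by ring, mul_pow]
  ring

end LX
end H11ST
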